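import Pool.Agent.H25.PsiLuzin

set_option autoImplicit false
open Cardinal Pool.Agent.H25.Psi

namespace Pool.Agent.Results.MP_a1c723_lc.Luzin

theorem result : (aleph 1 < dd → ∃ A, AD A ∧ #A = aleph 1 ∧ StarRoth (PsiSp A)) ∧
    (covM ≤ aleph 1 → aleph 1 < dd → ∃ (κ : Cardinal.{0}) (A : Set (Set ℕ)),
      AD A ∧ #A = κ ∧ covM ≤ κ ∧ cofC κ = κ ∧ StarRoth (PsiSp A)) :=
  ⟨main, fun h h' => let ⟨A, a, b, c⟩ := main h'; ⟨_, A, a, b, h, cof_one, c⟩⟩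

end Pool.Agent.Results.MP_a1c723_lc.Luzin
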